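import Pool.Agent.helper91.RB.Spec5

/-! # Project RB, row TWR: the tower -/

set_option autoImplicit false

namespace Pool.Agent.RB

open NumberField IsDedekindDomain Module
open scoped nonZeroDivisors Real Classical IsMulCommutative

theorem TWR_count {G : Type} [CommGroup G] [Finite G] (B : Subgroup G) :
    ((Finset.univ : Finset (G →* ℂˣ)).filter (fun ψ => ∀ b ∈ B, ψ b = 1)).card = B.index := by
  have h1 : Nat.card (MonoidHom.domRestrictHom B ℂˣ).ker = Nat.card (G ⧸ B) :=
    CommGroup.card_domRestrictHom_ker ℂ B
  have h2 : B.index = Nat.card (G ⧸ B) := rfl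
  rw [h2, ← h1, ← Fintype.card_subtype, ← Nat.card_eq_fintype_card]
  refine Nat.card_congr (Equiv.subtypeEquivRight (fun ψ => ?_))
  rw [MonoidHom.mem_ker]
  constructor
  · intro h
    ext b
    have := h b.1 b.2
    exact congrArg Units.val this
  · intro h b hb
    have h3 : (MonoidHom.domRestrictHom B ℂˣ ψ) ⟨b, hb⟩ = (1 : B →* ℂˣ) ⟨b, hb⟩ := by rw [h]
    exact h3

theorem TWR_group {G : Type} [Group G] [Finite G] (hG : ∀ a b : G, a * b = b * a)
    (B : Subgroup G) (c : G) (hc : c * c = 1) (hcB : c ∉ B) :
    (Psi B c).card = (B ⊔ Subgroup.zpowers c).index ∧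
      Nat.card (B ⊔ Subgroup.zpowers c : Subgroup G) = 2 * Nat.card B := by
  have hcz : ∀ y ∈ Subgroup.zpowers c, y = 1 ∨ y = c := by
    intro y hy
    obtain ⟨n, rfl⟩ := Subgroup.mem_zpowers_iff.1 hy
    rcases Int.even_or_odd' n with ⟨m, rfl | rfl⟩
    · left
      rw [zpow_mul, zpow_two, hc, one_zpow]
    · right
      rw [zpow_add, zpow_mul, zpow_two, hc, one_zpow, one_mul, zpow_one]
  have hcB' : c ∈ B ⊔ Subgroup.zpowers c := Subgroup.mem_sup_right (Subgroup.mem_zpowers c)
  have hmem : ∀ x ∈ B ⊔ Subgroup.zpowers c, x ∈ B ∨ x * c ∈ B := by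
    let _ : CommGroup G := { (inferInstance : Group G) with mul_comm := hG }
    intro x hx
    obtain ⟨a, ha, y, hy, rfl⟩ := Subgroup.mem_sup.1 hx
    rcases hcz y hy with rfl | rfl
    · left
      rwa [mul_one]
    · right
      rw [mul_assoc, hc, mul_one]
      exact ha
  have hrel : B.relIndex (B ⊔ Subgroup.zpowers c) = 2 := by
    rw [Subgroup.relIndex_eq_two_iff_exists_notMem_and]
    exact ⟨c, hcB', hcB, fun b hb => (hmem b hb).symm⟩
  have hidx : 2 * (B ⊔ Subgroup.zpowers c).index = B.index := by
    rw [← hrel]
    exact Subgroup.relIndex_mul_index le_sup_left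
  constructor
  · let _ : CommGroup G := { (inferInstance : Group G) with mul_comm := hG }
    have e1 := TWR_count B
    have e2 := TWR_count (B ⊔ Subgroup.zpowers c)
    have e3 : Psi B c = ((Finset.univ : Finset (G →* ℂˣ)).filter (fun ψ => ∀ b ∈ B, ψ b = 1)) \
        ((Finset.univ : Finset (G →* ℂˣ)).filter
          (fun ψ => ∀ b ∈ B ⊔ Subgroup.zpowers c, ψ b = 1)) := by
      ext ψ
      unfold Psi
      rw [Finset.mem_sdiff, Finset.mem_filter, Finset.mem_filter, Finset.mem_filter]
      constructor
      · rintro ⟨-, h1, h2⟩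
        refine ⟨⟨Finset.mem_univ _, h1⟩, ?_⟩
        rintro ⟨-, h3⟩
        have h4 := h3 c hcB'
        rw [h2] at h4
        have h5 : ((-1 : ℂˣ) : ℂ) = ((1 : ℂˣ) : ℂ) := by rw [h4]
        norm_num at h5
      · rintro ⟨⟨-, h1⟩, h2⟩
        refine ⟨Finset.mem_univ _, h1, ?_⟩
        have h3 : ψ c * ψ c = 1 := by rw [← map_mul, hc, map_one]
        have h4 : ((ψ c : ℂˣ) : ℂ) * ((ψ c : ℂˣ) : ℂ) = 1 := by
          rw [← Units.val_mul, h3, Units.val_one]
        rcases mul_self_eq_one_iff.1 h4 with h5 | h5
        · exfalso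
          apply h2
          refine ⟨Finset.mem_univ _, fun b hb => ?_⟩
          have h6 : ψ c = 1 := Units.ext h5
          rcases hmem b hb with h7 | h7
          · exact h1 b h7
          · have h8 := h1 _ h7
            rw [map_mul, h6, mul_one] at h8
            exact h8
        · apply Units.ext
          rw [h5]
          simp
    have e4 : ((Finset.univ : Finset (G →* ℂˣ)).filter
          (fun ψ => ∀ b ∈ B ⊔ Subgroup.zpowers c, ψ b = 1)) ⊆
        ((Finset.univ : Finset (G →* ℂˣ)).filter (fun ψ => ∀ b ∈ B, ψ b = 1)) := by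
      intro ψ hψ
      rw [Finset.mem_filter] at hψ ⊢
      exact ⟨hψ.1, fun b hb => hψ.2 b (Subgroup.mem_sup_left hb)⟩
    rw [e3, Finset.card_sdiff_of_subset e4, e1, e2]
    omega
  · have h1 := Subgroup.card_mul_index B
    have h2 := Subgroup.card_mul_index (B ⊔ Subgroup.zpowers c)
    rw [← hidx] at h1
    have h3 : 0 < (B ⊔ Subgroup.zpowers c).index :=
      Nat.pos_of_ne_zero Subgroup.index_ne_zero_of_finite
    have h4 : (2 * Nat.card B) * (B ⊔ Subgroup.zpowers c).index =
        Nat.card (B ⊔ Subgroup.zpowers c : Subgroup G) * (B ⊔ Subgroup.zpowers c).index := by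
      rw [h2, ← h1]
      ring
    exact (Nat.eq_of_mul_eq_mul_right h3 h4).symm

theorem TWR : TWR_stmt := by
  intro F H _ _ _ _ _ _ _ _ c hc B hcB
  have hcc : c * c = 1 := by
    ext x
    change c (c x) = x
    rw [hc, hc]
    exact IsCMField.complexConj_apply_apply H x
  have hcomm : ∀ a b : H ≃ₐ[F] H, a * b = b * a := fun a b => mul_comm a b
  obtain ⟨hPsi, hcard⟩ := TWR_group hcomm B c hcc hcB
  have hkK : IntermediateField.fixedField (B ⊔ Subgroup.zpowers c) ≤
      IntermediateField.fixedField B := IntermediateField.fixedField_antitone le_sup_left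
  let iA : Algebra (IntermediateField.fixedField (B ⊔ Subgroup.zpowers c))
      (IntermediateField.fixedField B) := (IntermediateField.inclusion hkK).toRingHom.toAlgebra
  have i1 : IsScalarTower F (IntermediateField.fixedField (B ⊔ Subgroup.zpowers c))
      (IntermediateField.fixedField B) := IsScalarTower.of_algebraMap_eq (fun x => rfl)
  have i2 : IsScalarTower (IntermediateField.fixedField (B ⊔ Subgroup.zpowers c))
      (IntermediateField.fixedField B) H := IsScalarTower.of_algebraMap_eq (fun x => rfl)
  have hfKH : finrank (IntermediateField.fixedField B) H = Nat.card B :=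
    IntermediateField.finrank_fixedField_eq_card B
  have hfkH : finrank (IntermediateField.fixedField (B ⊔ Subgroup.zpowers c)) H =
      Nat.card (B ⊔ Subgroup.zpowers c : Subgroup (H ≃ₐ[F] H)) :=
    IntermediateField.finrank_fixedField_eq_card _
  have hquad : finrank (IntermediateField.fixedField (B ⊔ Subgroup.zpowers c))
      (IntermediateField.fixedField B) = 2 := by
    have h1 := finrank_mul_finrank (IntermediateField.fixedField (B ⊔ Subgroup.zpowers c))
      (IntermediateField.fixedField B) H
    rw [hfKH, hfkH, hcard] at h1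
    have h2 : 0 < Nat.card B := Nat.card_pos
    exact Nat.eq_of_mul_eq_mul_right h2 h1
  have i3 : Algebra.IsQuadraticExtension (IntermediateField.fixedField (B ⊔ Subgroup.zpowers c))
      (IntermediateField.fixedField B) := ⟨hquad⟩
  have hfixk : ∀ x : IntermediateField.fixedField (B ⊔ Subgroup.zpowers c), c (x : H) = x := by
    intro x
    have h1 : c ∈ B ⊔ Subgroup.zpowers c := Subgroup.mem_sup_right (Subgroup.mem_zpowers c)
    exact x.2 ⟨c, h1⟩
  have hker : (AlgEquiv.restrictNormalHom (IntermediateField.fixedField B) :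
      (H ≃ₐ[F] H) →* (IntermediateField.fixedField B ≃ₐ[F] IntermediateField.fixedField B)).ker =
      B := by
    rw [IntermediateField.restrictNormalHom_ker, IntermediateField.fixingSubgroup_fixedField]
  have hres : ∀ (σ : H ≃ₐ[F] H) (y : IntermediateField.fixedField B),
      (((AlgEquiv.restrictNormalHom (IntermediateField.fixedField B) σ :
        IntermediateField.fixedField B ≃ₐ[F] IntermediateField.fixedField B) y : _) : H) =
        σ (y : H) := by
    intro σ y
    exact AlgEquiv.restrictNormal_commutes σ (IntermediateField.fixedField B) y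
  have i4 : IsTotallyReal (IntermediateField.fixedField (B ⊔ Subgroup.zpowers c)) := by
    refine ⟨fun v => ?_⟩
    rw [InfinitePlace.isReal_iff, ComplexEmbedding.isReal_iff]
    ext x
    have h1 := ComplexEmbedding.lift_algebraMap_apply H v.embedding x
    have h2 : algebraMap (IntermediateField.fixedField (B ⊔ Subgroup.zpowers c)) H x = (x : H) :=
      rfl
    rw [h2] at h1
    change star (v.embedding x) = v.embedding x
    rw [← h1]
    have h3 := IsCMField.complexEmbedding_complexConj H (ComplexEmbedding.lift H v.embedding) (x : H)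
    rw [← hc, hfixk] at h3
    exact h3.symm
  have i5 : IsTotallyComplex (IntermediateField.fixedField B) := by
    refine ⟨fun v => ?_⟩
    rw [InfinitePlace.isComplex_iff, ComplexEmbedding.isReal_iff]
    intro hv
    apply hcB
    rw [← hker, MonoidHom.mem_ker]
    ext y
    have h0 : c (y : H) = (y : H) := by
      apply (ComplexEmbedding.lift H v.embedding).injective
      have h1 := ComplexEmbedding.lift_algebraMap_apply H v.embedding y
      have h2 : algebraMap (IntermediateField.fixedField B) H y = (y : H) := rfl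
      rw [h2] at h1
      rw [hc, IsCMField.complexEmbedding_complexConj, h1]
      have h3 := RingHom.congr_fun hv y
      exact h3
    rw [hres, h0]
    rfl
  have i6 : IsCMField (IntermediateField.fixedField B) :=
    IsCMField.ofCMExtension (IntermediateField.fixedField (B ⊔ Subgroup.zpowers c)) _
  refine ⟨IntermediateField.fixedField (B ⊔ Subgroup.zpowers c), IntermediateField.fixedField B,
    inferInstance, inferInstance, inferInstance, inferInstance, inferInstance, iA, inferInstance,
    inferInstance, i1, inferInstance, inferInstance, inferInstance, i3, i4, i6, hker, ?_, ?_, ?_⟩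
  · intro x
    apply Subtype.ext
    rw [hres]
    exact hfixk x
  · intro h
    apply hcB
    rw [← hker, MonoidHom.mem_ker]
    exact h
  · rw [hPsi]
    have h1 := finrank_mul_finrank ℚ F (IntermediateField.fixedField (B ⊔ Subgroup.zpowers c))
    rw [← h1]
    congr 1
    have h2 := finrank_mul_finrank F (IntermediateField.fixedField (B ⊔ Subgroup.zpowers c)) H
    rw [hfkH] at h2
    have h3 : finrank F H = Nat.card (H ≃ₐ[F] H) := (IsGalois.card_aut_eq_finrank F H).symm
    have h4 := Subgroup.card_mul_index (B ⊔ Subgroup.zpowers c)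
    rw [h3, ← h4, mul_comm] at h2
    have h5 : 0 < Nat.card (B ⊔ Subgroup.zpowers c : Subgroup (H ≃ₐ[F] H)) := Nat.card_pos
    exact Nat.eq_of_mul_eq_mul_left h5 h2

end Pool.Agent.RB
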